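import Mathlib

/-!
# Graph pebbling: definitions and the weight function method
-/

namespace Pool.Agent.Q122.KP

open Finset

variable {V : Type*} [Fintype V] [DecidableEq V]

/-- One pebbling move takes two pebbles off `v` and puts one pebble on a neighbour `p` of `v`. -/
def Move (G : SimpleGraph V) (C D : V → ℕ) : Prop :=
  ∃ v p : V, G.Adj v p ∧ 2 ≤ C v ∧
    ∀ x, D x = (C x - if x = v then 2 else 0) + if x = p then 1 else 0

/-- From the distribution `C` some sequence of pebbling moves puts at least one pebble on `r`. -/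
def Solvable (G : SimpleGraph V) (r : V) (C : V → ℕ) : Prop :=
  ∃ D : V → ℕ, Relation.ReflTransGen (Move G) C D ∧ 1 ≤ D r

/-- `π(G,r)`: the least `k` such that every distribution of size `k` is solvable for `r`. -/
noncomputable def pebblingNumberAt (G : SimpleGraph V) (r : V) : ℕ :=
  sInf {k : ℕ | ∀ C : V → ℕ, ∑ v, C v = k → Solvable G r C}

/-- `π(G)`: the maximum of `π(G,r)` over all targets `r`. -/
noncomputable def pebblingNumber (G : SimpleGraph V) : ℕ :=
  Finset.univ.sup (fun r : V => pebblingNumberAt G r)

/-- `G` is of Class 0: its pebbling number is its number of vertices. -/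
def ClassZero (G : SimpleGraph V) : Prop := pebblingNumber G = Fintype.card V

/-- a pebbling move as a function -/
def mv (C : V → ℕ) (v p : V) : V → ℕ :=
  fun x => (C x - if x = v then 2 else 0) + if x = p then 1 else 0

lemma move_mv {G : SimpleGraph V} {C : V → ℕ} {v p : V} (h : G.Adj v p) (h2 : 2 ≤ C v) :
    Move G C (mv C v p) := ⟨v, p, h, h2, fun _ => rfl⟩

lemma solvable_of_move {G : SimpleGraph V} {r : V} {C D : V → ℕ} (h : Move G C D)
    (hD : Solvable G r D) : Solvable G r C := by
  obtain ⟨E, h1, h2⟩ := hD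
  exact ⟨E, Relation.ReflTransGen.head h h1, h2⟩

lemma sum_mv (C w : V → ℕ) (v p : V) (h2 : 2 ≤ C v) :
    ∑ x, w x * mv C v p x + 2 * w v = ∑ x, w x * C x + w p := by
  have h1 : ∀ x, w x * mv C v p x + (if x = v then 2 * w v else 0)
      = w x * C x + (if x = p then w p else 0) := by
    intro x
    unfold mv
    by_cases hx : x = v
    · subst hx
      by_cases hp : x = p
      · subst hp
        simp only [if_true]
        obtain ⟨c, hc⟩ := Nat.exists_eq_add_of_le h2
        rw [hc]
        simp only [Nat.add_sub_cancel_left]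
        ring
      · simp only [if_true, hp, if_false]
        obtain ⟨c, hc⟩ := Nat.exists_eq_add_of_le h2
        rw [hc]
        simp only [Nat.add_sub_cancel_left]
        ring
    · by_cases hp : x = p
      · subst hp
        simp only [if_true, hx, if_false]
        ring_nf
        simp
      · simp [hx, hp]
  have h3 := Finset.sum_congr rfl (fun x (_ : x ∈ (Finset.univ : Finset V)) => h1 x)
  rw [Finset.sum_add_distrib, Finset.sum_add_distrib] at h3
  simpa using h3

/-- **The weight function lemma.** -/
theorem solvable_of_weight (G : SimpleGraph V) (r : V) (w : V → ℕ) (hr : w r = 0)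
    (hw : ∀ v, 0 < w v → ∃ p, G.Adj v p ∧ (p = r ∨ 2 * w v ≤ w p)) :
    ∀ (n : ℕ) (C : V → ℕ), ∑ v, C v = n → ∑ v, w v < ∑ v, w v * C v → Solvable G r C := by
  intro n
  induction n using Nat.strong_induction_on with
  | _ n ih =>
    intro C hC hlt
    obtain ⟨v, _, hv⟩ := Finset.exists_lt_of_sum_lt hlt
    have hw0 : 0 < w v := by
      rcases Nat.eq_zero_or_pos (w v) with h | h
      · rw [h] at hv; simp at hv
      · exact h
    have hc2 : 2 ≤ C v := by
      by_contra hcon
      have : C v ≤ 1 := by omega
      have := Nat.mul_le_mul_left (w v) this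
      omega
    obtain ⟨p, hadj, hp⟩ := hw v hw0
    have hmv := move_mv (C := C) hadj hc2
    rcases hp with hp | hp
    · refine ⟨mv C v p, Relation.ReflTransGen.single hmv, ?_⟩
      subst hp
      simp [mv]
    · apply solvable_of_move hmv
      have hs1 := sum_mv C (fun _ => 1) v p hc2
      simp only [one_mul, mul_one] at hs1
      have hs2 := sum_mv C w v p hc2
      refine ih (∑ x, mv C v p x) ?_ _ rfl ?_
      · omega
      · omega

/-- No move is possible from a distribution with at most one pebble on every vertex. -/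
lemma not_solvable_of_le_one (G : SimpleGraph V) (r : V) (C : V → ℕ) (h1 : ∀ v, C v ≤ 1)
    (h0 : C r = 0) : ¬ Solvable G r C := by
  rintro ⟨D, hD, hr⟩
  have : C = D := by
    rcases Relation.ReflTransGen.cases_head hD with h | ⟨E, hE, _⟩
    · exact h
    · obtain ⟨v, p, _, h2, _⟩ := hE
      have := h1 v
      omega
  subst this
  omega

lemma card_le_of_solvable (G : SimpleGraph V) (r : V) (k : ℕ)
    (hk : ∀ C : V → ℕ, ∑ v, C v = k → Solvable G r C) : Fintype.card V ≤ k := by
  by_contra hcon
  have hc : k ≤ (Finset.univ.erase r : Finset V).card := by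
    rw [Finset.card_erase_of_mem (Finset.mem_univ r), Finset.card_univ]
    omega
  obtain ⟨S, hS, hcard⟩ := Finset.exists_subset_card_eq hc
  refine not_solvable_of_le_one G r (fun x => if x ∈ S then 1 else 0) ?_ ?_ (hk _ ?_)
  · intro v
    show (if v ∈ S then 1 else 0) ≤ 1
    split_ifs <;> omega
  · have : r ∉ S := fun h => by simpa using hS h
    simp [this]
  · simp [hcard]

/-- If every distribution of size `|V|` is solvable, the graph is of Class 0. -/
theorem classZero_of_solvable [Nonempty V] (G : SimpleGraph V)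
    (h : ∀ (r : V) (C : V → ℕ), ∑ v, C v = Fintype.card V → Solvable G r C) : ClassZero G := by
  have h1 : ∀ r : V, pebblingNumberAt G r = Fintype.card V := by
    intro r
    apply le_antisymm
    · exact Nat.sInf_le (h r)
    · exact le_csInf ⟨_, h r⟩ (fun k hk => card_le_of_solvable G r k hk)
  unfold ClassZero pebblingNumber
  simp only [h1]
  exact Finset.sup_const Finset.univ_nonempty _

/-- **Averaging of weight functions.** -/
theorem classZero_of_weights [Nonempty V] (G : SimpleGraph V)
    (h : ∀ r : V, ∃ (U : Finset V) (w : V → V → ℕ) (κ : ℕ), 0 < κ ∧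
      (∀ u ∈ U, w u r = 0) ∧
      (∀ u ∈ U, ∀ v, 0 < w u v → ∃ p, G.Adj v p ∧ (p = r ∨ 2 * w u v ≤ w u p)) ∧
      (∀ v, v ≠ r → ∑ u ∈ U, w u v = κ)) : ClassZero G := by
  apply classZero_of_solvable
  intro r C hC
  by_contra hcon
  obtain ⟨U, w, κ, hκ, h0, h1, h2⟩ := h r
  have h3 : ∀ u ∈ U, ∑ v, w u v * C v ≤ ∑ v, w u v := by
    intro u hu
    by_contra hlt
    exact hcon (solvable_of_weight G r (w u) (h0 u hu) (h1 u hu) _ C rfl (not_le.mp hlt))
  have h4 := Finset.sum_le_sum h3
  rw [Finset.sum_comm, Finset.sum_comm (s := U) (t := Finset.univ)] at h4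
  have hr0 : C r = 0 := by
    by_contra hne
    exact hcon ⟨C, Relation.ReflTransGen.refl, Nat.one_le_iff_ne_zero.mpr hne⟩
  have h5 : ∀ v, ∑ u ∈ U, w u v * C v = κ * C v := by
    intro v
    rw [← Finset.sum_mul]
    by_cases hv : v = r
    · subst hv
      rw [hr0]
      simp
    · rw [h2 v hv]
  have h6 : ∀ v, ∑ u ∈ U, w u v = if v = r then 0 else κ := by
    intro v
    split_ifs with hv
    · subst hv
      exact Finset.sum_eq_zero h0
    · exact h2 v hv
  simp only [h5, h6] at h4
  rw [← Finset.mul_sum, hC, Finset.sum_ite, Finset.sum_const_zero, zero_add,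
    Finset.sum_const, smul_eq_mul, mul_comm] at h4
  have h7 : (Finset.univ.filter (fun v : V => ¬ v = r)).card < Fintype.card V := by
    rw [← Finset.card_univ]
    apply Finset.card_lt_card
    rw [Finset.ssubset_iff_of_subset (Finset.filter_subset _ _)]
    exact ⟨r, Finset.mem_univ _, by simp⟩
  have h8 := Nat.le_of_mul_le_mul_right h4 hκ
  omega

end Pool.Agent.Q122.KP
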