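import Pool.Agent.Q122.KP.Defs

/-!
# Kneser graphs and class weight functions
-/

namespace Pool.Agent.Q122.KP

open Finset

/-- The Kneser graph `K(m,t)`: the `t`-element subsets of an `m`-element set, adjacent when
disjoint. -/
def kneser (m t : ℕ) : SimpleGraph {s : Finset (Fin m) // s.card = t} where
  Adj a b := a ≠ b ∧ Disjoint a.1 b.1
  symm := ⟨fun _ _ h => ⟨h.1.symm, h.2.symm⟩⟩
  loopless := ⟨fun _ h => h.1 rfl⟩

/-- number of `t`-subsets of `S` meeting `B` in exactly `j` points -/
lemma card_inter {α : Type*} [DecidableEq α] (S B : Finset α) (t j : ℕ) (hj : j ≤ t) :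
    ((S.powersetCard t).filter (fun u => (B ∩ u).card = j)).card
      = (S ∩ B).card.choose j * (S \ B).card.choose (t - j) := by
  rw [← Finset.card_powersetCard, ← Finset.card_powersetCard, ← Finset.card_product]
  symm
  refine Finset.card_bij (fun x _ => x.1 ∪ x.2) ?_ ?_ ?_
  · rintro ⟨a, b⟩ h
    simp only [Finset.mem_product, Finset.mem_powersetCard, Finset.mem_filter] at h ⊢
    obtain ⟨⟨ha, hac⟩, hb, hbc⟩ := h
    have hdis : Disjoint a b := by
      rw [Finset.disjoint_left]
      intro x hx hx'
      have h1 := ha hx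
      have h2 := hb hx'
      simp only [Finset.mem_inter, Finset.mem_sdiff] at h1 h2
      exact h2.2 h1.2
    have hBi : B ∩ (a ∪ b) = a := by
      ext x
      simp only [Finset.mem_inter, Finset.mem_union]
      constructor
      · rintro ⟨hxB, hx | hx⟩
        · exact hx
        · have h2 := hb hx
          simp only [Finset.mem_sdiff] at h2
          exact absurd hxB h2.2
      · intro hx
        have h1 := ha hx
        simp only [Finset.mem_inter] at h1
        exact ⟨h1.2, Or.inl hx⟩
    refine ⟨⟨?_, ?_⟩, ?_⟩
    · apply Finset.union_subset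
      · exact ha.trans Finset.inter_subset_left
      · exact hb.trans Finset.sdiff_subset
    · rw [Finset.card_union_of_disjoint hdis, hac, hbc]
      omega
    · rw [hBi, hac]
  · rintro ⟨a, b⟩ h ⟨a', b'⟩ h' heq
    simp only [Finset.mem_product, Finset.mem_powersetCard] at h h'
    obtain ⟨⟨ha, -⟩, hb, -⟩ := h
    obtain ⟨⟨ha', -⟩, hb', -⟩ := h'
    simp only at heq
    have key : ∀ (a b : Finset α), a ⊆ S ∩ B → b ⊆ S \ B →
        (a ∪ b) ∩ B = a ∧ (a ∪ b) \ B = b := by
      intro a b ha hb
      constructor
      · ext x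
        simp only [Finset.mem_inter, Finset.mem_union]
        constructor
        · rintro ⟨hx | hx, hxB⟩
          · exact hx
          · have h2 := hb hx
            simp only [Finset.mem_sdiff] at h2
            exact absurd hxB h2.2
        · intro hx
          have h1 := ha hx
          simp only [Finset.mem_inter] at h1
          exact ⟨Or.inl hx, h1.2⟩
      · ext x
        simp only [Finset.mem_sdiff, Finset.mem_union]
        constructor
        · rintro ⟨hx | hx, hxB⟩
          · have h1 := ha hx
            simp only [Finset.mem_inter] at h1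
            exact absurd h1.2 hxB
          · exact hx
        · intro hx
          have h2 := hb hx
          simp only [Finset.mem_sdiff] at h2
          exact ⟨Or.inr hx, h2.2⟩
    have k1 := key a b ha hb
    have k2 := key a' b' ha' hb'
    rw [heq] at k1
    rw [Prod.mk.injEq]
    exact ⟨k1.1.symm.trans k2.1, k1.2.symm.trans k2.2⟩
  · intro u hu
    simp only [Finset.mem_filter, Finset.mem_powersetCard] at hu
    obtain ⟨⟨hus, huc⟩, hj'⟩ := hu
    refine ⟨(B ∩ u, u \ B), ?_, ?_⟩
    · simp only [Finset.mem_product, Finset.mem_powersetCard]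
      refine ⟨⟨?_, hj'⟩, ?_, ?_⟩
      · intro x hx
        simp only [Finset.mem_inter] at hx ⊢
        exact ⟨hus hx.2, hx.1⟩
      · intro x hx
        simp only [Finset.mem_sdiff] at hx ⊢
        exact ⟨hus hx.1, hx.2⟩
      · have := Finset.card_sdiff_add_card_inter u B
        rw [Finset.inter_comm] at this
        omega
    · ext x
      simp only [Finset.mem_union, Finset.mem_inter, Finset.mem_sdiff]
      tauto

/-- The finite conditions on a table `g` of class weights. -/
def Good (m t κ : ℕ) (g : ℕ → ℕ → ℕ) : Prop :=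
  (∀ j, g t j = 0) ∧ (∀ j, j < t → g 0 j = 0) ∧ g 0 t = κ ∧
  (∀ i, 1 ≤ i → i < t →
    ∑ j ∈ Finset.range (t + 1), (t - i).choose j * (m - 2 * t + i).choose (t - j) * g i j = κ) ∧
  (∀ i, 1 ≤ i → i < t → ∀ j, 0 < g i j → i + j ≤ t → t - i - j ≤ m - 2 * t →
    ∃ i' j', i + i' ≤ t ∧ j + j' ≤ t ∧ i' + j' ≤ t ∧ (t - i - j) + (t - i' - j') ≤ m - 2 * t ∧
      2 * g i j ≤ g i' j')

/-- A table of class weights proves that the Kneser graph is of Class 0. -/
theorem classZero_of_good {m t κ : ℕ} (ht : 1 ≤ t) (hm : 2 * t + 1 ≤ m) (hκ : 0 < κ)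
    (g : ℕ → ℕ → ℕ) (hg : Good m t κ g) : ClassZero (kneser m t) := by
  obtain ⟨g1, g2, g3, g4, g5⟩ := hg
  have hne : Nonempty {s : Finset (Fin m) // s.card = t} := by
    obtain ⟨s, -, hs⟩ := Finset.exists_subset_card_eq
      (s := (Finset.univ : Finset (Fin m))) (n := t) (by rw [Finset.card_univ, Fintype.card_fin]; omega)
    exact ⟨⟨s, hs⟩⟩
  apply classZero_of_weights
  intro r
  have hrc : (Finset.univ \ r.1 : Finset (Fin m)).card = m - t := by
    rw [Finset.card_univ_sdiff, Fintype.card_fin, r.2]
  refine ⟨Finset.univ.filter (fun u => Disjoint r.1 u.1),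
    fun u v => g (v.1 ∩ r.1).card (v.1 ∩ u.1).card, κ, hκ, ?_, ?_, ?_⟩
  · intro u _
    show g (r.1 ∩ r.1).card _ = 0
    rw [Finset.inter_self, r.2]
    exact g1 _
  · intro u hu v hv
    rw [Finset.mem_filter] at hu
    have hdis := hu.2
    dsimp only at hv ⊢
    -- sizes
    have hvr : (v.1 ∩ r.1).card ≤ t := by
      have := Finset.card_le_card (Finset.inter_subset_left (s₁ := v.1) (s₂ := r.1))
      rwa [v.2] at this
    have hvu : (v.1 ∩ u.1).card ≤ t := by
      have := Finset.card_le_card (Finset.inter_subset_left (s₁ := v.1) (s₂ := u.1))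
      rwa [v.2] at this
    have hsum : (v.1 ∩ r.1).card + (v.1 ∩ u.1).card + (v.1 \ (r.1 ∪ u.1)).card = t := by
      have h1 : Disjoint (v.1 ∩ r.1) (v.1 ∩ u.1) := by
        apply Disjoint.mono _ _ hdis
        · exact Finset.inter_subset_right
        · exact Finset.inter_subset_right
      rw [← Finset.card_union_of_disjoint h1, ← Finset.inter_union_distrib_left,
        Finset.card_inter_add_card_sdiff, v.2]
    have hit : (v.1 ∩ r.1).card ≠ t := by
      intro h
      rw [h, g1] at hv
      omega
    rcases Nat.eq_zero_or_pos (v.1 ∩ r.1).card with h0 | hpos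
    · -- then `v = u`
      refine ⟨r, ⟨?_, ?_⟩, Or.inl rfl⟩
      · intro h
        rw [h, Finset.inter_self, r.2] at h0
        omega
      · rw [Finset.disjoint_iff_inter_eq_empty]
        exact Finset.card_eq_zero.mp h0
    · obtain ⟨i', j', hi, hj, hij, hk, h2⟩ := g5 _ hpos (by omega) _ hv (by omega) (by
        have h3 : (v.1 \ (r.1 ∪ u.1)).card ≤ (Finset.univ \ (r.1 ∪ u.1) : Finset (Fin m)).card :=
          Finset.card_le_card (Finset.sdiff_subset_sdiff (Finset.subset_univ _) subset_rfl)
        rw [Finset.card_univ_sdiff, Fintype.card_fin, Finset.card_union_of_disjoint hdis, r.2,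
          u.2] at h3
        omega)
      have hr' : (r.1 \ v.1).card = t - (v.1 ∩ r.1).card := by
        have := Finset.card_sdiff_add_card_inter r.1 v.1
        rw [r.2, Finset.inter_comm] at this
        omega
      have hu' : (u.1 \ v.1).card = t - (v.1 ∩ u.1).card := by
        have := Finset.card_sdiff_add_card_inter u.1 v.1
        rw [u.2, Finset.inter_comm] at this
        omega
      have hw' : ((Finset.univ \ (r.1 ∪ u.1)) \ v.1 : Finset (Fin m)).card
          = m - 2 * t - (v.1 \ (r.1 ∪ u.1)).card := by
        have h4 := Finset.card_sdiff_add_card_inter (Finset.univ \ (r.1 ∪ u.1) : Finset (Fin m)) v.1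
        have h5 : (Finset.univ \ (r.1 ∪ u.1) : Finset (Fin m)) ∩ v.1 = v.1 \ (r.1 ∪ u.1) := by
          ext x
          simp only [Finset.mem_inter, Finset.mem_sdiff, Finset.mem_univ, true_and]
          tauto
        rw [h5, Finset.card_univ_sdiff, Fintype.card_fin, Finset.card_union_of_disjoint hdis, r.2,
          u.2] at h4
        omega
      obtain ⟨a, ha, hac⟩ := Finset.exists_subset_card_eq (s := r.1 \ v.1) (n := i') (by omega)
      obtain ⟨b, hb, hbc⟩ := Finset.exists_subset_card_eq (s := u.1 \ v.1) (n := j') (by omega)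
      obtain ⟨c, hc, hcc⟩ := Finset.exists_subset_card_eq
        (s := (Finset.univ \ (r.1 ∪ u.1)) \ v.1) (n := t - i' - j') (by omega)
      have hab : Disjoint a b := by
        apply Disjoint.mono _ _ hdis
        · exact ha.trans Finset.sdiff_subset
        · exact hb.trans Finset.sdiff_subset
      have hcmem : ∀ x ∈ c, x ∉ r.1 ∧ x ∉ u.1 ∧ x ∉ v.1 := by
        intro x hx
        have := hc hx
        simp only [Finset.mem_sdiff, Finset.mem_univ, true_and, Finset.mem_union, not_or] at this
        exact ⟨this.1.1, this.1.2, this.2⟩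
      have hamem : ∀ x ∈ a, x ∈ r.1 ∧ x ∉ u.1 ∧ x ∉ v.1 := by
        intro x hx
        have := ha hx
        simp only [Finset.mem_sdiff] at this
        exact ⟨this.1, Finset.disjoint_left.mp hdis this.1, this.2⟩
      have hbmem : ∀ x ∈ b, x ∉ r.1 ∧ x ∈ u.1 ∧ x ∉ v.1 := by
        intro x hx
        have := hb hx
        simp only [Finset.mem_sdiff] at this
        exact ⟨Finset.disjoint_right.mp hdis this.1, this.1, this.2⟩
      have habc : Disjoint (a ∪ b) c := by
        rw [Finset.disjoint_left]
        intro x hx hxc
        rw [Finset.mem_union] at hx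
        rcases hx with hx | hx
        · exact (hcmem x hxc).1 (hamem x hx).1
        · exact (hcmem x hxc).2.1 (hbmem x hx).2.1
      have hpcard : (a ∪ b ∪ c).card = t := by
        rw [Finset.card_union_of_disjoint habc, Finset.card_union_of_disjoint hab, hac, hbc, hcc]
        omega
      have hpr : (a ∪ b ∪ c) ∩ r.1 = a := by
        ext x
        simp only [Finset.mem_inter, Finset.mem_union]
        constructor
        · rintro ⟨(hx | hx) | hx, hxr⟩
          · exact hx
          · exact absurd hxr (hbmem x hx).1
          · exact absurd hxr (hcmem x hx).1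
        · intro hx
          exact ⟨Or.inl (Or.inl hx), (hamem x hx).1⟩
      have hpu : (a ∪ b ∪ c) ∩ u.1 = b := by
        ext x
        simp only [Finset.mem_inter, Finset.mem_union]
        constructor
        · rintro ⟨(hx | hx) | hx, hxr⟩
          · exact absurd hxr (hamem x hx).2.1
          · exact hx
          · exact absurd hxr (hcmem x hx).2.1
        · intro hx
          exact ⟨Or.inl (Or.inr hx), (hbmem x hx).2.1⟩
      have hvp : Disjoint v.1 (a ∪ b ∪ c) := by
        rw [Finset.disjoint_right]
        intro x hx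
        simp only [Finset.mem_union] at hx
        rcases hx with (hx | hx) | hx
        · exact (hamem x hx).2.2
        · exact (hbmem x hx).2.2
        · exact (hcmem x hx).2.2
      refine ⟨⟨a ∪ b ∪ c, hpcard⟩, ⟨?_, hvp⟩, Or.inr ?_⟩
      · intro h
        have h5 : v.1 = a ∪ b ∪ c := congrArg Subtype.val h
        rw [← h5, disjoint_self] at hvp
        have h6 := v.2
        rw [hvp] at h6
        simp at h6
        omega
      · dsimp only
        rw [hpr, hpu, hac, hbc]
        exact h2
  · intro v hv
    have hvr : (v.1 ∩ r.1).card ≤ t := by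
      have := Finset.card_le_card (Finset.inter_subset_left (s₁ := v.1) (s₂ := r.1))
      rwa [v.2] at this
    have hlt : (v.1 ∩ r.1).card < t := by
      rcases Nat.lt_or_ge (v.1 ∩ r.1).card t with h | h
      · exact h
      · exfalso
        apply hv
        have h1 : v.1 ∩ r.1 = v.1 := Finset.eq_of_subset_of_card_le Finset.inter_subset_left
          (by rw [v.2]; exact h)
        have h2 : v.1 ⊆ r.1 := by rw [← h1]; exact Finset.inter_subset_right
        exact Subtype.ext (Finset.eq_of_subset_of_card_le h2 (by rw [v.2, r.2]))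
    set i := (v.1 ∩ r.1).card with hi
    -- pass to a sum over `t`-subsets of the complement of `r`
    have hsum : ∑ u ∈ Finset.univ.filter
        (fun u : {s : Finset (Fin m) // s.card = t} => Disjoint r.1 u.1), g i (v.1 ∩ u.1).card
        = ∑ u ∈ (Finset.univ \ r.1 : Finset (Fin m)).powersetCard t, g i (v.1 ∩ u).card := by
      refine Finset.sum_bij (fun u _ => u.1) ?_ ?_ ?_ ?_
      · intro u hu
        rw [Finset.mem_filter] at hu
        rw [Finset.mem_powersetCard]
        refine ⟨?_, u.2⟩
        intro x hx
        rw [Finset.mem_sdiff]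
        exact ⟨Finset.mem_univ _, Finset.disjoint_right.mp hu.2 hx⟩
      · intro u _ u' _ h
        exact Subtype.ext h
      · intro u hu
        rw [Finset.mem_powersetCard] at hu
        refine ⟨⟨u, hu.2⟩, ?_, rfl⟩
        rw [Finset.mem_filter]
        refine ⟨Finset.mem_univ _, ?_⟩
        rw [Finset.disjoint_right]
        intro x hx
        have := hu.1 hx
        rw [Finset.mem_sdiff] at this
        exact this.2
      · intro u _
        rfl
    rw [hsum]
    have hfib : ∑ u ∈ (Finset.univ \ r.1 : Finset (Fin m)).powersetCard t, g i (v.1 ∩ u).card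
        = ∑ j ∈ Finset.range (t + 1),
          ∑ u ∈ ((Finset.univ \ r.1 : Finset (Fin m)).powersetCard t).filter
            (fun u => (v.1 ∩ u).card = j), g i (v.1 ∩ u).card := by
      symm
      apply Finset.sum_fiberwise_of_maps_to
      intro u hu
      rw [Finset.mem_powersetCard] at hu
      rw [Finset.mem_range]
      have := Finset.card_le_card (Finset.inter_subset_right (s₁ := v.1) (s₂ := u))
      omega
    rw [hfib]
    have hA : ((Finset.univ \ r.1 : Finset (Fin m)) ∩ v.1).card = t - i := by
      have h1 : (Finset.univ \ r.1 : Finset (Fin m)) ∩ v.1 = v.1 \ r.1 := by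
        ext x
        simp only [Finset.mem_inter, Finset.mem_sdiff, Finset.mem_univ, true_and]
        tauto
      have h2 := Finset.card_sdiff_add_card_inter v.1 r.1
      rw [h1]
      rw [v.2] at h2
      omega
    have hB : ((Finset.univ \ r.1 : Finset (Fin m)) \ v.1).card = m - 2 * t + i := by
      have h2 := Finset.card_sdiff_add_card_inter (Finset.univ \ r.1 : Finset (Fin m)) v.1
      rw [hA, hrc] at h2
      omega
    have hterm : ∀ j ∈ Finset.range (t + 1),
        ∑ u ∈ ((Finset.univ \ r.1 : Finset (Fin m)).powersetCard t).filter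
            (fun u => (v.1 ∩ u).card = j), g i (v.1 ∩ u).card
        = (t - i).choose j * (m - 2 * t + i).choose (t - j) * g i j := by
      intro j hj
      rw [Finset.mem_range] at hj
      rw [← hA, ← hB, ← card_inter _ _ _ _ (by omega), ← smul_eq_mul, ← Finset.sum_const]
      apply Finset.sum_congr rfl
      intro u hu
      rw [Finset.mem_filter] at hu
      rw [hu.2]
    rw [Finset.sum_congr rfl hterm]
    rcases Nat.eq_zero_or_pos i with h0 | hpos
    · rw [h0, Finset.sum_range_succ, Finset.sum_eq_zero, g3]
      · simp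
      · intro j hj
        rw [Finset.mem_range] at hj
        rw [g2 j hj, mul_zero]
    · exact g4 i hpos hlt

end Pool.Agent.Q122.KP
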