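import Pool.Agent.Q122.KP.Kneser

/-!
# The eleven tables
-/

namespace Pool.Agent.Q122.KP

open Finset

/-- look up in a table -/
def tab (L : List ((ℕ × ℕ) × ℕ)) (i j : ℕ) : ℕ :=
  match L.find? (fun x => decide (x.1 = (i, j))) with
  | some x => x.2
  | none => 0

lemma tab_mem (L : List ((ℕ × ℕ) × ℕ)) (i j : ℕ) (h : 0 < tab L i j) :
    ((i, j), tab L i j) ∈ L := by
  rcases hf : L.find? (fun x => decide (x.1 = (i, j))) with _ | x
  · have h0 : tab L i j = 0 := by
      unfold tab
      rw [hf]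
    omega
  · have h0 : tab L i j = x.2 := by
      unfold tab
      rw [hf]
    have h1 := List.find?_some hf
    have h2 := List.mem_of_find?_eq_some hf
    have h3 : x.1 = (i, j) := of_decide_eq_true h1
    have h4 : ((i, j), tab L i j) = x := by
      rw [h0, ← h3]
    rw [h4]
    exact h2

/-- the finite check -/
def Chk (m t κ : ℕ) (L : List ((ℕ × ℕ) × ℕ)) : Prop :=
  (∀ x ∈ L, x.1.1 < t ∧ (x.1.1 = 0 → x.1.2 = t)) ∧ tab L 0 t = κ ∧
  (∀ i, i < t → 1 ≤ i →
    ∑ j ∈ Finset.range (t + 1), (t - i).choose j * (m - 2 * t + i).choose (t - j) * tab L i j = κ) ∧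
  (∀ x ∈ L, 1 ≤ x.1.1 →
    ∃ i', i' < t + 1 ∧ ∃ j', j' < t + 1 ∧ x.1.1 + i' ≤ t ∧ x.1.2 + j' ≤ t ∧ i' + j' ≤ t ∧
      (t - x.1.1 - x.1.2) + (t - i' - j') ≤ m - 2 * t ∧ 2 * x.2 ≤ tab L i' j')

instance (m t κ : ℕ) (L : List ((ℕ × ℕ) × ℕ)) : Decidable (Chk m t κ L) := by
  unfold Chk
  infer_instance

lemma good_of_chk {m t κ : ℕ} {L : List ((ℕ × ℕ) × ℕ)} (h : Chk m t κ L) :
    Good m t κ (tab L) := by
  obtain ⟨h1, h2, h3, h4⟩ := h
  refine ⟨?_, ?_, h2, ?_, ?_⟩
  · intro j
    by_contra hne
    have := h1 _ (tab_mem L t j (Nat.pos_of_ne_zero hne))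
    simp at this
  · intro j hj
    by_contra hne
    have := (h1 _ (tab_mem L 0 j (Nat.pos_of_ne_zero hne))).2 rfl
    simp only at this
    omega
  · intro i hi hit
    exact h3 i hit hi
  · intro i hi hit j hpos hij hk
    obtain ⟨i', _, j', _, a, b, c, d, e⟩ := h4 _ (tab_mem L i j hpos) hi
    exact ⟨i', j', a, b, c, d, e⟩

theorem classZero_of_chk {m t κ : ℕ} {L : List ((ℕ × ℕ) × ℕ)} (ht : 1 ≤ t) (hm : 2 * t + 1 ≤ m)
    (hκ : 0 < κ) (h : Chk m t κ L) : ClassZero (kneser m t) :=
  classZero_of_good ht hm hκ _ (good_of_chk h)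

theorem k12_5 : ClassZero (kneser 12 5) :=
  classZero_of_chk (κ := 60) (L := [((0,5),60),((1,3),5),((2,3),10),((3,0),30),((3,1),3),((4,0),10)])
    (by norm_num) (by norm_num) (by norm_num) (by decide +kernel)

theorem k13_5 : ClassZero (kneser 13 5) :=
  classZero_of_chk (κ := 840) (L := [((0,5),840),((1,2),20),((1,3),15),((2,0),420),((2,2),14),
    ((3,0),140),((4,0),40)])
    (by norm_num) (by norm_num) (by norm_num) (by decide +kernel)

theorem k14_5 : ClassZero (kneser 14 5) :=
  classZero_of_chk (κ := 840) (L := [((0,5),840),((1,0),420),((1,2),7),((2,0),140),((3,0),40),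
    ((4,0),15)])
    (by norm_num) (by norm_num) (by norm_num) (by decide +kernel)

theorem k15_5 : ClassZero (kneser 15 5) :=
  classZero_of_chk (κ := 504) (L := [((0,5),504),((1,0),84),((2,0),24),((3,0),9),((4,0),4)])
    (by norm_num) (by norm_num) (by norm_num) (by decide +kernel)

theorem k16_5 : ClassZero (kneser 16 5) :=
  classZero_of_chk (κ := 504) (L := [((0,5),504),((1,0),24),((2,0),9),((3,0),4),((4,0),2)])
    (by norm_num) (by norm_num) (by norm_num) (by decide +kernel)

theorem k15_6 : ClassZero (kneser 15 6) :=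
  classZero_of_chk (κ := 840) (L := [((0,6),840),((1,3),15),((1,4),8),((2,3),21),((3,0),420),
    ((3,3),21),((4,0),120),((5,0),30)])
    (by norm_num) (by norm_num) (by norm_num) (by decide +kernel)

theorem k16_6 : ClassZero (kneser 16 6) :=
  classZero_of_chk (κ := 6300) (L := [((0,6),6300),((1,3),63),((2,0),3150),((2,2),35),((3,0),900),
    ((4,0),225),((5,0),75)])
    (by norm_num) (by norm_num) (by norm_num) (by decide +kernel)

theorem k17_6 : ClassZero (kneser 17 6) :=
  classZero_of_chk (κ := 8400) (L := [((0,6),8400),((1,0),4200),((1,3),21),((2,0),1200),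
    ((3,0),300),((4,0),100),((5,0),40)])
    (by norm_num) (by norm_num) (by norm_num) (by decide +kernel)

theorem k17_7 : ClassZero (kneser 17 7) :=
  classZero_of_chk (κ := 37800) (L := [((0,7),37800),((1,4),525),((1,5),175),((2,4),756),
    ((3,4),1890),((4,0),18900),((4,2),300),((5,0),4725),((6,0),1050)])
    (by norm_num) (by norm_num) (by norm_num) (by decide +kernel)

theorem k18_7 : ClassZero (kneser 18 7) :=
  classZero_of_chk (κ := 12600) (L := [((0,7),12600),((1,4),84),((2,3),84),((3,0),6300),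
    ((3,3),45),((4,0),1575),((5,0),350),((6,0),105)])
    (by norm_num) (by norm_num) (by norm_num) (by decide +kernel)

theorem k20_8 : ClassZero (kneser 20 8) :=
  classZero_of_chk (κ := 69300) (L := [((0,8),69300),((1,5),330),((2,4),308),((3,4),396),
    ((4,0),34650),((4,4),495),((5,0),7700),((6,0),1540),((7,0),420)])
    (by norm_num) (by norm_num) (by norm_num) (by decide +kernel)

/-- The hypotheses of the question hold for eleven pairs only. -/
lemma pairs {m t : ℕ} (ht : 5 ≤ t) (hm : 5 * t - 1 ≤ 2 * m) (hc : (m - t).choose t ≤ 511) :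
    (t = 5 ∧ (m = 12 ∨ m = 13 ∨ m = 14 ∨ m = 15 ∨ m = 16)) ∨
    (t = 6 ∧ (m = 15 ∨ m = 16 ∨ m = 17)) ∨ (t = 7 ∧ (m = 17 ∨ m = 18)) ∨ (t = 8 ∧ m = 20) := by
  have hmono : ∀ a, a ≤ m - t → a.choose t ≤ 511 := fun a ha => (Nat.choose_le_choose t ha).trans hc
  rcases Nat.lt_or_ge t 9 with h9 | h9
  · interval_cases t
    · have : m < 17 := by
        by_contra hcon
        have := hmono 12 (by omega)
        revert this
        decide +kernel
      omega
    · have : m < 18 := by
        by_contra hcon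
        have := hmono 12 (by omega)
        revert this
        decide +kernel
      omega
    · have : m < 19 := by
        by_contra hcon
        have := hmono 12 (by omega)
        revert this
        decide +kernel
      omega
    · have : m < 21 := by
        by_contra hcon
        have := hmono 13 (by omega)
        revert this
        decide +kernel
      omega
  · exfalso
    have h1 := hmono (t + 4) (by omega)
    have h2 : (t + 4).choose t = (t + 4).choose 4 := by
      have := Nat.choose_symm_add (a := t) (b := 4)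
      exact this
    rw [h2] at h1
    have h3 : (13 : ℕ).choose 4 ≤ (t + 4).choose 4 := Nat.choose_le_choose 4 (by omega)
    have h4 : (13 : ℕ).choose 4 = 715 := by decide +kernel
    omega

theorem main {m t : ℕ} (ht : 5 ≤ t) (hm : 5 * t - 1 ≤ 2 * m) (hc : (m - t).choose t ≤ 511) :
    ClassZero (kneser m t) := by
  rcases pairs ht hm hc with ⟨rfl, rfl | rfl | rfl | rfl | rfl⟩ | ⟨rfl, rfl | rfl | rfl⟩ |
    ⟨rfl, rfl | rfl⟩ | ⟨rfl, rfl⟩
  · exact k12_5
  · exact k13_5
  · exact k14_5
  · exact k15_5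
  · exact k16_5
  · exact k15_6
  · exact k16_6
  · exact k17_6
  · exact k17_7
  · exact k18_7
  · exact k20_8

end Pool.Agent.Q122.KP
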